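import Mathlib
import Pool.Agent.helper81.FS.SpecU

/-!
# Row U5 of project fs (MP_07c750): harmonic measure of an interval
-/

set_option autoImplicit false

namespace Pool.Agent.helper45.FS

open Pool.Agent.helper81.FS MeasureTheory Set Complex

lemma arg_sub (s : ℝ) (z : ℂ) (hz : 0 < z.im) :
    Complex.arg ((s : ℂ) - z) = Real.arctan ((s - z.re) / z.im) - Real.pi / 2 := by
  set t : ℝ := (s - z.re) / z.im with ht
  have h1 : (0 : ℝ) < 1 + t ^ 2 := by positivity
  have hs : (0 : ℝ) < Real.sqrt (1 + t ^ 2) := Real.sqrt_pos.mpr h1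
  have hr : 0 < z.im * Real.sqrt (1 + t ^ 2) := mul_pos hz hs
  have hc : Real.cos (Real.arctan t - Real.pi / 2) = t / Real.sqrt (1 + t ^ 2) := by
    rw [Real.cos_sub_pi_div_two, Real.sin_arctan]
  have hsn : Real.sin (Real.arctan t - Real.pi / 2) = -(1 / Real.sqrt (1 + t ^ 2)) := by
    rw [Real.sin_sub_pi_div_two, Real.cos_arctan]
  have key : (s : ℂ) - z = ((z.im * Real.sqrt (1 + t ^ 2) : ℝ) : ℂ) *
      (Complex.cos ((Real.arctan t - Real.pi / 2 : ℝ) : ℂ)
        + Complex.sin ((Real.arctan t - Real.pi / 2 : ℝ) : ℂ) * I) := by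
    rw [← Complex.ofReal_cos, ← Complex.ofReal_sin, hc, hsn]
    apply Complex.ext
    · simp only [Complex.sub_re, Complex.ofReal_re, Complex.mul_re, Complex.add_re,
        Complex.ofReal_im, Complex.I_re, Complex.I_im, Complex.mul_im, Complex.add_im]
      have : z.im * Real.sqrt (1 + t ^ 2) * (t / Real.sqrt (1 + t ^ 2)) = s - z.re := by
        rw [ht]; field_simp
      linarith
    · simp only [Complex.sub_im, Complex.ofReal_re, Complex.mul_re, Complex.add_re,
        Complex.ofReal_im, Complex.I_re, Complex.I_im, Complex.mul_im, Complex.add_im]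
      have : z.im * Real.sqrt (1 + t ^ 2) * (1 / Real.sqrt (1 + t ^ 2)) = z.im := by
        field_simp
      linarith
  rw [key]
  apply Complex.arg_mul_cos_add_sin_mul_I hr
  have h2 := Real.neg_pi_div_two_lt_arctan t
  have h3 := Real.arctan_lt_pi_div_two t
  have h4 := Real.pi_pos
  constructor <;> linarith

lemma W_re (a b : ℝ) (z : ℂ) (hz : 0 < z.im) :
    (W a b z).re = (Real.arctan ((b - z.re) / z.im) - Real.arctan ((a - z.re) / z.im)) / Real.pi := by
  have h : (W a b z).re = ((Complex.log ((b : ℂ) - z)).im - (Complex.log ((a : ℂ) - z)).im)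
      / Real.pi := by
    unfold W
    have h0 : (Real.pi : ℂ) ≠ 0 := by exact_mod_cast Real.pi_ne_zero
    have : (Complex.log ((b : ℂ) - z) - Complex.log ((a : ℂ) - z)) / ((Real.pi : ℂ) * I)
        = (-(I * (Complex.log ((b : ℂ) - z) - Complex.log ((a : ℂ) - z)))) / (Real.pi : ℂ) := by
      rw [div_eq_div_iff (mul_ne_zero h0 I_ne_zero) h0]
      linear_combination ((Real.pi : ℂ) * (Complex.log ((b : ℂ) - z)
        - Complex.log ((a : ℂ) - z))) * I_sq
    rw [this, Complex.div_ofReal_re]
    simp [Complex.mul_re, Complex.sub_re, Complex.sub_im]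
  rw [h, Complex.log_im, Complex.log_im, arg_sub b z hz, arg_sub a z hz]
  ring

lemma arctan_mvt (u v : ℝ) (h : u < v) :
    ∃ c ∈ Ioo u v, Real.arctan v - Real.arctan u = (v - u) / (1 + c ^ 2) := by
  obtain ⟨c, hc, he⟩ := exists_hasDerivAt_eq_slope Real.arctan (fun x => 1 / (1 + x ^ 2)) h
    Real.continuous_arctan.continuousOn (fun x _ => Real.hasDerivAt_arctan x)
  refine ⟨c, hc, ?_⟩
  have h1 : v - u ≠ 0 := by linarith [h] |> fun (h' : 0 < v - u) => h'.ne'
  have h2 : (1 : ℝ) + c ^ 2 ≠ 0 := by positivity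
  rw [div_eq_div_iff h2 h1] at he
  rw [eq_div_iff h2]
  linarith

theorem U5_proof : U5_stmt := by
  intro a b hab
  have hpi := Real.pi_pos
  refine ⟨?_, ?_, ?_⟩
  · intro z hz
    have hlt : (a - z.re) / z.im < (b - z.re) / z.im := by
      apply div_lt_div_of_pos_right _ hz; linarith
    have hre := W_re a b z hz
    refine ⟨?_, ?_, ?_, ?_⟩
    · have ha : ((a : ℂ) - z) ∈ slitPlane := by
        right; simp [hz.ne']
      have hb : ((b : ℂ) - z) ∈ slitPlane := by
        right; simp [hz.ne']
      have h1 : DifferentiableAt ℂ (fun w : ℂ => Complex.log ((b : ℂ) - w)) z :=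
        ((differentiableAt_const _).sub differentiableAt_id).clog hb
      have h2 : DifferentiableAt ℂ (fun w : ℂ => Complex.log ((a : ℂ) - w)) z :=
        ((differentiableAt_const _).sub differentiableAt_id).clog ha
      exact (h1.sub h2).div_const _
    · rw [hre]
      apply div_nonneg _ hpi.le
      have := Real.arctan_strictMono hlt
      linarith
    · rw [hre, div_le_one hpi]
      have h2 := Real.neg_pi_div_two_lt_arctan ((a - z.re) / z.im)
      have h3 := Real.arctan_lt_pi_div_two ((b - z.re) / z.im)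
      linarith
    · rw [hre]
      obtain ⟨c, hc, he⟩ := arctan_mvt _ _ hlt
      rw [he]
      have h1 : (b - z.re) / z.im - (a - z.re) / z.im = (b - a) / z.im := by ring
      rw [h1]
      have h2 : (b - a) / z.im / (1 + c ^ 2) ≤ (b - a) / z.im := by
        apply div_le_self
        · apply div_nonneg _ hz.le; linarith
        · nlinarith [sq_nonneg c]
      calc (b - a) / z.im / (1 + c ^ 2) / Real.pi ≤ (b - a) / z.im / Real.pi :=
            div_le_div_of_nonneg_right h2 hpi.le
        _ = (b - a) / (Real.pi * z.im) := by field_simp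
  · intro z d hz hd hs
    have hlt : (a - z.re) / z.im < (b - z.re) / z.im := by
      apply div_lt_div_of_pos_right _ hz; linarith
    rw [W_re a b z hz]
    obtain ⟨c, hc, he⟩ := arctan_mvt _ _ hlt
    rw [he]
    have h1 : (b - z.re) / z.im - (a - z.re) / z.im = (b - a) / z.im := by ring
    rw [h1]
    have hca : a < z.im * c + z.re := by
      have := hc.1; rw [div_lt_iff₀ hz] at this; linarith
    have hcb : z.im * c + z.re < b := by
      have := hc.2; rw [lt_div_iff₀ hz] at this; linarith
    have h2 := hs (z.im * c + z.re) ⟨hca.le, hcb.le⟩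
    have h3 : |z.re - (z.im * c + z.re)| = z.im * |c| := by
      rw [show z.re - (z.im * c + z.re) = -(z.im * c) by ring, abs_neg, abs_mul, abs_of_pos hz]
    rw [h3] at h2
    have h4 : d ^ 2 ≤ z.im ^ 2 * (1 + c ^ 2) := by
      have : d ^ 2 ≤ (z.im * |c|) ^ 2 := by
        apply pow_le_pow_left₀ hd.le h2
      rw [mul_pow, sq_abs] at this
      nlinarith [sq_nonneg z.im]
    have hc1 : (0 : ℝ) < 1 + c ^ 2 := by positivity
    have hd2 : (0 : ℝ) < d ^ 2 := by positivity
    rw [div_div, div_div, div_le_div_iff₀ (by positivity) (by positivity)]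
    have h5 : (b - a) * d ^ 2 ≤ (b - a) * (z.im ^ 2 * (1 + c ^ 2)) :=
      mul_le_mul_of_nonneg_left h4 (by linarith)
    have h6 := mul_le_mul_of_nonneg_left h5 hpi.le
    nlinarith [h6]
  · intro ha
    have hI : (0 : ℝ) < (I : ℂ).im := by simp
    rw [W_re a b I hI]
    simp only [Complex.I_re, Complex.I_im, sub_zero, div_one]
    obtain ⟨c, hc, he⟩ := arctan_mvt _ _ hab
    rw [he]
    have hc1 : (0 : ℝ) < 1 + c ^ 2 := by positivity
    have hb1 : (0 : ℝ) < 1 + b ^ 2 := by positivity
    rw [div_div, div_le_div_iff₀ (by positivity) (by positivity)]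
    have h1 : c ^ 2 ≤ b ^ 2 := by
      apply pow_le_pow_left₀ (by linarith [hc.1]) hc.2.le
    have h2 : (b - a) * ((1 + c ^ 2) * Real.pi) ≤ (b - a) * ((1 + b ^ 2) * Real.pi) := by
      apply mul_le_mul_of_nonneg_left _ (by linarith)
      apply mul_le_mul_of_nonneg_right _ hpi.le
      linarith
    linarith

end Pool.Agent.helper45.FS
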